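import Mathlib

/-!
# The linear algebra of the Riemann-Roch count along a free line
-/

set_option autoImplicit false

namespace Pool.Agent.Helper86.DP

open Module

section

variable {k H : Type*} [Field k] [AddCommGroup H] [Module k H] [Module.Finite k H]

theorem perp_le (B : LinearMap.BilinForm k H) (M N : Submodule k H)
    (h1 : LinearMap.ker B ≤ M) (h2 : N ≤ B.orthogonal M)
    (h3 : finrank k M + finrank k N = finrank k H + finrank k (LinearMap.ker B)) :
    B.orthogonal M ≤ N := by
  have h := LinearMap.BilinForm.finrank_add_finrank_orthogonal' (B := B) M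
  have h4 : M ⊓ LinearMap.ker B = LinearMap.ker B := inf_eq_right.2 h1
  have h5 : finrank k (M ⊓ LinearMap.ker B : Submodule k H) = finrank k (LinearMap.ker B) := by
    rw [h4]
  have h6 : finrank k (B.orthogonal M) = finrank k N := by
    have : finrank k M + finrank k (B.orthogonal M) = finrank k H + finrank k (LinearMap.ker B) := by
      rw [h, ← h5]
    omega
  exact (Submodule.eq_of_le_of_finrank_eq h2 h6.symm).ge

theorem pencil [IsAlgClosed k] (a b : H →ₗ[k] H →ₗ[k] k) (ha : ∀ v, a v v = 0)
    (hb : ∀ v, b v v = 0) (K : Submodule k H) (x : K →ₗ[k] H)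
    (hK : ∀ v, v ∈ K ↔ ∀ u, b v u = 0)
    (hx : ∀ (lam : k) (v : H), (∃ w : K, v = x w - lam • (w : H)) ↔
      ∀ u, a v u + lam * b v u = 0)
    (hinj : ∀ (lam : k) (w : K), x w = lam • (w : H) → w = 0) :
    finrank k H = 3 * finrank k K := by
  have ha' : ∀ v u, a v u = - a u v := by
    intro v u
    have := ha (v + u)
    simp only [map_add, LinearMap.add_apply, ha, zero_add, add_zero] at this
    exact eq_neg_of_add_eq_zero_right this
  have hb' : ∀ v u, b v u = - b u v := by
    intro v u
    have := hb (v + u)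
    simp only [map_add, LinearMap.add_apply, hb, zero_add, add_zero] at this
    exact eq_neg_of_add_eq_zero_right this
  have F1 : ∀ (w : K) v, b w v = 0 := fun w v => (hK w).1 w.2 v
  have F2 : ∀ (w : K) v, a (x w) v = 0 := by
    intro w v
    have := (hx 0 (x w)).1 ⟨w, by simp⟩ v
    simpa using this
  have F3 : ∀ (w : K) v, b (x w) v = a w v := by
    intro w v
    have := (hx 1 (x w - (w : H))).1 ⟨w, by simp⟩ v
    simp only [map_sub, LinearMap.sub_apply, F1, F2, one_mul] at this
    linear_combination this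
  have F4 : ∀ w w' : K, a w w' = 0 := by
    intro w w'
    rw [← F3, hb', F1, neg_zero]
  -- the common radical vanishes
  have hU : ∀ v : H, (∀ u, a v u = 0) → (∀ u, b v u = 0) → v = 0 := by
    let U : Submodule k H := LinearMap.ker a ⊓ LinearMap.ker b
    have hUK : ∀ v ∈ U, v ∈ K := fun v hv => (hK v).2 fun u => by
      have : b v = 0 := hv.2
      rw [this]; rfl
    have hUx : ∀ (v : H) (hv : v ∈ U), x ⟨v, hUK v hv⟩ ∈ U := by
      intro v hv
      refine ⟨LinearMap.ext fun u => ?_, LinearMap.ext fun u => ?_⟩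
      · rw [F2]; rfl
      · rw [F3]
        have : a v = 0 := hv.1
        change a v u = _
        rw [this]
    let T : Module.End k U :=
      { toFun := fun v => ⟨x ⟨v.1, hUK v.1 v.2⟩, hUx v.1 v.2⟩
        map_add' := by
          intro v w
          apply Subtype.ext
          change x ⟨v.1 + w.1, _⟩ = x ⟨v.1, _⟩ + x ⟨w.1, _⟩
          rw [← map_add]
          rfl
        map_smul' := by
          intro c v
          apply Subtype.ext
          change x ⟨c • v.1, _⟩ = c • x ⟨v.1, _⟩
          rw [← map_smul]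
          rfl }
    have hU0 : U = ⊥ := by
      by_contra hne
      have : Nontrivial U := Submodule.nontrivial_iff_ne_bot.2 hne
      obtain ⟨c, hc⟩ := Module.End.exists_eigenvalue T
      obtain ⟨v, hv⟩ := hc.exists_hasEigenvector
      have h1 := hv.apply_eq_smul
      have h2 : x ⟨v.1, hUK v.1 v.2⟩ = c • v.1 := congrArg Subtype.val h1
      have h3 := hinj c ⟨v.1, hUK v.1 v.2⟩ h2
      apply hv.2
      apply Subtype.ext
      have h4 : (v.1 : H) = 0 := congrArg (Subtype.val : K → H) h3
      exact h4
    intro v h1 h2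
    have : v ∈ U := ⟨LinearMap.ext h1, LinearMap.ext h2⟩
    rw [hU0] at this
    exact this
  have hKx : Disjoint K (LinearMap.range x) := by
    rw [Submodule.disjoint_def]
    rintro v hv ⟨w, rfl⟩
    exact hU _ (F2 w) ((hK _).1 hv)
  have hxinj : Function.Injective x := by
    rw [← LinearMap.ker_eq_bot, LinearMap.ker_eq_bot']
    intro w hw
    exact hinj 0 w (by rw [hw, zero_smul])
  have hrx : finrank k (LinearMap.range x) = finrank k K :=
    LinearMap.finrank_range_of_inj hxinj
  have hN : finrank k (K ⊔ LinearMap.range x : Submodule k H) = 2 * finrank k K := by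
    have := Submodule.finrank_sup_add_finrank_inf_eq K (LinearMap.range x)
    rw [hKx.eq_bot, finrank_bot, hrx] at this
    omega
  -- the forms of the pencil
  obtain ⟨M, hMdef⟩ : ∃ M : Submodule k H, M = LinearMap.BilinForm.orthogonal a K := ⟨_, rfl⟩
  have hM : ∀ v, v ∈ M ↔ ∀ w : K, a w v = 0 := by
    intro v
    rw [hMdef, LinearMap.BilinForm.mem_orthogonal_iff]
    exact ⟨fun h w => h w w.2, fun h w hw => h ⟨w, hw⟩⟩
  have hkera : K ⊓ LinearMap.ker a = ⊥ := by
    rw [eq_bot_iff]
    rintro v ⟨hv1, hv2⟩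
    have h2 : a v = 0 := hv2
    exact hU v (fun u => by rw [h2]; rfl) ((hK v).1 hv1)
  have hMrk : finrank k K + finrank k M = finrank k H := by
    have := LinearMap.BilinForm.finrank_add_finrank_orthogonal' (B := a) K
    rw [← hMdef] at this
    rw [this]
    have h0 : finrank k (K ⊓ LinearMap.ker a : Submodule k H) = 0 := by
      rw [hkera, finrank_bot]
    omega
  have hKM : K ≤ M := fun v hv => (hM v).2 fun w => F4 w ⟨v, hv⟩
  have hxM : LinearMap.range x ≤ M := by
    rintro _ ⟨w, rfl⟩
    exact (hM _).2 fun w' => by rw [ha', F2, neg_zero]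
  have hNM : K ⊔ LinearMap.range x ≤ M := sup_le hKM hxM
  -- radicals of the restrictions
  have Rb : ∀ v, (∀ u ∈ M, b v u = 0) → v ∈ K ⊔ LinearMap.range x := by
    have key := perp_le (B := b) M (K ⊔ LinearMap.range x) ?_ ?_ ?_
    · intro v hv
      apply key
      rw [LinearMap.BilinForm.mem_orthogonal_iff]
      intro u hu
      rw [hb', hv u hu, neg_zero]
    · intro v hv
      apply hKM
      rw [hK]
      intro u
      have : b v = 0 := hv
      rw [this]; rfl
    · refine sup_le (fun v hv => ?_) ?_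
      · rw [LinearMap.BilinForm.mem_orthogonal_iff]
        intro u _
        rw [hb', (hK v).1 hv u, neg_zero]
      · rintro _ ⟨w, rfl⟩
        rw [LinearMap.BilinForm.mem_orthogonal_iff]
        intro u hu
        rw [hb', F3, (hM u).1 hu w, neg_zero]
    · rw [hN]
      have h0 : finrank k (LinearMap.ker b) = finrank k K := by
        have : LinearMap.ker b = K := by
          ext v
          rw [hK]
          exact ⟨fun h u => by rw [LinearMap.mem_ker.1 h]; rfl, fun h => LinearMap.ext h⟩
        rw [this]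
      rw [h0]
      omega
  have Ra : ∀ (lam : k) v, (∀ u ∈ M, a v u + lam * b v u = 0) → v ∈ K ⊔ LinearMap.range x := by
    intro lam
    have happ : ∀ v u, (a + lam • b) v u = a v u + lam * b v u := fun v u => by
      simp [smul_eq_mul]
    have halt : ∀ v, (a + lam • b) v v = 0 := fun v => by rw [happ, ha, hb]; ring
    have hskew : ∀ v u, (a + lam • b) v u = - (a + lam • b) u v := fun v u => by
      rw [happ, happ, ha' v u, hb' v u]; ring
    have key := perp_le (B := a + lam • b) M (K ⊔ LinearMap.range x) ?_ ?_ ?_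
    · intro v hv
      apply key
      rw [LinearMap.BilinForm.mem_orthogonal_iff]
      intro u hu
      rw [hskew, happ, hv u hu, neg_zero]
    · intro v hv
      have h0 : ∀ u, a v u + lam * b v u = 0 := fun u => by
        rw [← happ, LinearMap.mem_ker.1 hv]; rfl
      obtain ⟨w, rfl⟩ := (hx lam v).2 h0
      exact M.sub_mem (hxM ⟨w, rfl⟩) (M.smul_mem _ (hKM w.2))
    · refine sup_le (fun v hv => ?_) ?_
      · rw [LinearMap.BilinForm.mem_orthogonal_iff]
        intro u hu
        rw [hskew, happ, (hK v).1 hv u, (hM u).1 hu ⟨v, hv⟩]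
        ring
      · rintro _ ⟨w, rfl⟩
        rw [LinearMap.BilinForm.mem_orthogonal_iff]
        intro u hu
        rw [hskew, happ, F3, F2, (hM u).1 hu w]
        ring
    · rw [hN]
      have h0 : finrank k (LinearMap.ker (a + lam • b)) = finrank k K := by
        have h1 : LinearMap.ker (a + lam • b) = LinearMap.range (x - lam • K.subtype) := by
          ext v
          rw [LinearMap.mem_range]
          constructor
          · intro h
            obtain ⟨w, hw⟩ := (hx lam v).2 fun u => by
              rw [← happ, LinearMap.mem_ker.1 h]; rfl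
            exact ⟨w, by rw [hw]; rfl⟩
          · rintro ⟨w, rfl⟩
            refine LinearMap.ext fun u => ?_
            rw [happ]
            exact (hx lam _).1 ⟨w, rfl⟩ u
        rw [h1]
        refine LinearMap.finrank_range_of_inj ?_
        rw [← LinearMap.ker_eq_bot, LinearMap.ker_eq_bot']
        intro w hw
        refine hinj lam w ?_
        have : x w - lam • (w : H) = 0 := hw
        exact sub_eq_zero.1 this
      rw [h0]
      omega
  -- the end
  by_cases hEq : K ⊔ LinearMap.range x = M
  · rw [hEq] at hN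
    omega
  exfalso
  obtain ⟨N', hN'⟩ := Submodule.exists_isCompl (K ⊔ LinearMap.range x)
  obtain ⟨Q, hQdef⟩ : ∃ Q : Submodule k H, Q = M ⊓ N' := ⟨_, rfl⟩
  have hdec : ∀ v ∈ M, ∃ n ∈ K ⊔ LinearMap.range x, ∃ q ∈ Q, v = n + q := by
    intro v hv
    have : v ∈ (K ⊔ LinearMap.range x) ⊔ N' := by
      rw [hN'.sup_eq_top]; trivial
    obtain ⟨n, hn, n', hn', h⟩ := Submodule.mem_sup.1 this
    refine ⟨n, hn, n', ?_, h.symm⟩
    rw [hQdef]
    refine ⟨?_, hn'⟩
    have : n' = v - n := by rw [← h]; abel
    rw [this]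
    exact M.sub_mem hv (hNM hn)
  have hQ0 : ∀ v ∈ Q, v ∈ K ⊔ LinearMap.range x → v = 0 := by
    intro v hv hv'
    rw [hQdef] at hv
    have := hN'.disjoint
    rw [Submodule.disjoint_def] at this
    exact this v hv' hv.2
  have hQM : Q ≤ M := by rw [hQdef]; exact inf_le_left
  have hNa : ∀ n ∈ K ⊔ LinearMap.range x, ∀ v ∈ M, a v n = 0 := by
    intro n hn v hv
    obtain ⟨p, hp, q, ⟨w, rfl⟩, rfl⟩ := Submodule.mem_sup.1 hn
    rw [map_add, ha' v p, (hM v).1 hv ⟨p, hp⟩, ha' v (x w), F2]
    ring
  have hNb : ∀ n ∈ K ⊔ LinearMap.range x, ∀ v ∈ M, b v n = 0 := by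
    intro n hn v hv
    obtain ⟨p, hp, q, ⟨w, rfl⟩, rfl⟩ := Submodule.mem_sup.1 hn
    rw [map_add, hb' v p, (hK p).1 hp v, hb' v (x w), F3, (hM v).1 hv w]
    ring
  have hQne : Q ≠ ⊥ := by
    intro h
    apply hEq
    refine le_antisymm hNM fun v hv => ?_
    obtain ⟨n, hn, q, hq, rfl⟩ := hdec v hv
    rw [h, Submodule.mem_bot] at hq
    rw [hq, add_zero]
    exact hn
  have : Nontrivial Q := Submodule.nontrivial_iff_ne_bot.2 hQne
  let A : Q →ₗ[k] Dual k Q := (a.domRestrict Q).compr₂ LinearMap.id |>.flip.domRestrict Q |>.flip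
  let B : Q →ₗ[k] Dual k Q := (b.domRestrict Q).flip.domRestrict Q |>.flip
  have hA : ∀ p q : Q, A p q = a p q := fun _ _ => rfl
  have hB : ∀ p q : Q, B p q = b p q := fun _ _ => rfl
  have hBinj : Function.Injective B := by
    rw [← LinearMap.ker_eq_bot, LinearMap.ker_eq_bot']
    intro q hq
    apply Subtype.ext
    refine hQ0 _ q.2 (Rb _ fun u hu => ?_)
    obtain ⟨n, hn, q', hq', rfl⟩ := hdec u hu
    rw [map_add, hNb n hn q (hQM q.2), zero_add]
    have := LinearMap.congr_fun hq ⟨q', hq'⟩
    rw [hB] at this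
    exact this
  let e : Q ≃ₗ[k] Dual k Q := LinearMap.linearEquivOfInjective B hBinj
    (Subspace.dual_finrank_eq).symm
  have he : ∀ q, e q = B q := fun _ => rfl
  let T : Module.End k Q := e.symm.toLinearMap ∘ₗ A
  obtain ⟨c, hc⟩ := Module.End.exists_eigenvalue T
  obtain ⟨v, hv⟩ := hc.exists_hasEigenvector
  have h1 : e.symm (A v) = c • v := hv.apply_eq_smul
  have h2 : A v = c • B v := by
    have := congrArg e h1
    rw [LinearEquiv.apply_symm_apply, map_smul, he] at this
    exact this
  apply hv.2
  apply Subtype.ext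
  refine hQ0 _ v.2 (Ra (-c) _ fun u hu => ?_)
  obtain ⟨n, hn, q', hq', rfl⟩ := hdec u hu
  rw [map_add, map_add, hNa n hn v (hQM v.2), hNb n hn v (hQM v.2), zero_add, zero_add]
  have h3 := LinearMap.congr_fun h2 ⟨q', hq'⟩
  rw [LinearMap.smul_apply, hA, hB, smul_eq_mul] at h3
  rw [h3]
  ring

end

end Pool.Agent.Helper86.DP
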